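import Mathlib
import Pool.Agent.U980.RC.Most

/-!
# Components of Shimura varieties and equidistribution on their products
-/

set_option autoImplicit false

namespace Pool.Agent.U980.RP

open Pool.Agent.U980.EQ Pool.Agent.U980.RC MulAction MeasureTheory Filter Topology ProbabilityTheory

/-- A component `S` of a Shimura variety over a number field `E`, with the action of `G = Gal(ℚ̄/E)` on its
special points. -/
structure Variety (G : Type) [Group G] where
  /-- the special points -/
  P : Type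
  [act : MulAction G P]
  /-- the space `S(ℂ)` -/
  X : Type
  [top : TopologicalSpace X]
  [metr : TopologicalSpace.MetrizableSpace X]
  [sc : SecondCountableTopology X]
  [ms : MeasurableSpace X]
  [bs : BorelSpace X]
  /-- a special point as a complex point -/
  pt : P → X
  /-- the invariant probability measure -/
  m : Measure X
  [prob : IsProbabilityMeasure m]
  pt_inj : Function.Injective pt
  /-- special points are algebraic -/
  finite_orbit : ∀ p : P, (orbit G p).Finite

attribute [instance] Variety.act Variety.top Variety.metr Variety.sc Variety.ms Variety.bs Variety.prob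

/-- The uniform probability measure on the Galois orbit of a tuple `x` of special points. -/
noncomputable def galoisMeasure {G : Type} [Group G] {ι : Type} {Y : ι → Variety G} (x : ∀ j, (Y j).P) :
    Measure (∀ j, (Y j).X) :=
  uniformOn ((fun (y : ∀ j, (Y j).P) j => (Y j).pt (y j)) '' orbit G x)

section block

variable {G : Type} [Group G] {ι : Type} {P : ι → Type} [∀ j, MulAction G (P j)]

/-- One coordinate is averaged over the orbits of a normal subgroup which fixes the other coordinates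
which occur in `h`. -/
theorem av_far' {Δ : Subgroup G} (hΔ : Δ.Normal) (hfin : ∀ j (p : P j), (orbit G p).Finite)
    {x : ∀ j, P j} {O : Finset (∀ j, P j)} (hO : (O : Set (∀ j, P j)) = orbit G x) {j : ι}
    (h : (∀ j, P j) → ℝ) (h1 : ∀ y ∈ O, |h y| ≤ 1) (hinv : ∀ y ∈ O, ∀ δ ∈ Δ, h (δ • y) = h y)
    (φ : P j → ℝ) (μ : ℝ) (ψ : P j → ℝ)
    (hψ : ∀ p, ∀ T : Finset (P j), (T : Set (P j)) = orbit Δ p → |av T φ - μ| ≤ ψ p) :
    |av O (fun z => h z * φ (z j)) - μ * av O h| ≤ av O (fun y => ψ (y j)) := by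
  classical
  have hsub : ∀ (H : Subgroup G) (j : ι) (p : P j), (orbit H p).Finite := by
    intro H j p
    refine (hfin j p).subset ?_
    rintro _ ⟨h, rfl⟩
    exact ⟨(h : G), rfl⟩
  have hmem : ∀ y, y ∈ O ↔ y ∈ orbit G x := fun y => by rw [← hO, Finset.mem_coe]
  have hxO : x ∈ O := (hmem x).2 (mem_orbit_self x)
  -- the blocks
  have hRfin : ∀ y ∈ O, (orbit Δ y).Finite := by
    intro y hy
    refine (O.finite_toSet).subset ?_
    rintro _ ⟨d, rfl⟩
    rw [Finset.mem_coe, hmem]
    rw [hmem] at hy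
    exact (orbit_eq_iff.2 hy) ▸ (⟨(d : G), rfl⟩ : (d : G) • y ∈ orbit G y)
  set R : (∀ j, P j) → Finset (∀ j, P j) := fun y =>
    if hy : y ∈ O then (hRfin y hy).toFinset else ∅ with hR
  have hRy : ∀ y (hy : y ∈ O), (R y : Set (∀ j, P j)) = orbit Δ y := by
    intro y hy
    simp only [hR]
    rw [dif_pos hy, Set.Finite.coe_toFinset]
  have hRmem : ∀ y ∈ O, ∀ z, z ∈ R y ↔ z ∈ orbit Δ y := fun y hy z => by
    rw [← hRy y hy, Finset.mem_coe]
  set b := (orbit Δ x).ncard with hb
  have hcard : ∀ y ∈ O, (R y).card = b := by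
    intro y hy
    rw [← Set.ncard_coe_finset, hRy y hy]
    obtain ⟨g, rfl⟩ := (hmem y).1 hy
    exact orbit_smul_ncard hΔ g x
  have hb0 : 0 < b := (Set.ncard_pos (hRfin x hxO)).2 ⟨x, mem_orbit_self x⟩
  have hRO : ∀ y ∈ O, R y ⊆ O := by
    intro y hy z hz
    rw [hRmem y hy] at hz
    obtain ⟨d, rfl⟩ := hz
    rw [hmem] at hy ⊢
    exact (orbit_eq_iff.2 hy) ▸ (⟨(d : G), rfl⟩ : (d : G) • y ∈ orbit G y)
  -- averages over orbits in one coordinate
  set T : P j → Finset (P j) := fun p => (hsub Δ j p).toFinset with hT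
  have hTp : ∀ p, (T p : Set (P j)) = orbit Δ p := fun p => Set.Finite.coe_toFinset _
  have havR : ∀ y ∈ O, (∑ z ∈ R y, h z * φ (z j)) / b = h y * av (T (y j)) φ := by
    intro y hy
    have e1 : ∑ z ∈ R y, h z * φ (z j) = h y * ∑ z ∈ R y, φ (z j) := by
      rw [Finset.mul_sum]
      refine Finset.sum_congr rfl fun z hz => ?_
      rw [hRmem y hy] at hz
      obtain ⟨d, rfl⟩ := hz
      have h3 : h (d • y) = h y := hinv y hy d d.2
      rw [h3]
    have e2 : av (R y) (fun z => φ (z j)) = av (T (y j)) φ :=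
      av_equiv (H := Δ) (π := fun z : ∀ j, P j => z j) (fun g a => rfl) y (hRy y hy) (hTp (y j)) φ
    rw [e1, ← e2, av, hcard y hy, mul_div_assoc]
  have hsum : ∑ y ∈ O, h y * φ (y j) = ∑ y ∈ O, h y * av (T (y j)) φ := by
    have e := avg_block O R b hb0 hRO hcard (fun y hy z hz hzy => by
      rw [hRmem y hy] at hzy
      rw [hRmem z hz]
      exact mem_orbit_symm.1 hzy) (fun z => h z * φ (z j))
    rw [← e]
    exact Finset.sum_congr rfl havR
  have hOpos : (0 : ℝ) < O.card := by exact_mod_cast Finset.card_pos.2 ⟨x, hxO⟩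
  have hdiff : av O (fun z => h z * φ (z j)) - μ * av O h =
      (∑ y ∈ O, h y * (av (T (y j)) φ - μ)) / O.card := by
    rw [av, av, hsum, mul_div_assoc', ← sub_div, Finset.mul_sum, ← Finset.sum_sub_distrib]
    congr 1
    exact Finset.sum_congr rfl fun y _ => by ring
  rw [hdiff, abs_div, abs_of_pos hOpos, av]
  refine div_le_div_of_nonneg_right ?_ hOpos.le
  refine (Finset.abs_sum_le_sum_abs _ _).trans (Finset.sum_le_sum fun z hz => ?_)
  rw [abs_mul]
  calc |h z| * |av (T (z j)) φ - μ| ≤ 1 * |av (T (z j)) φ - μ| :=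
        mul_le_mul_of_nonneg_right (h1 z hz) (abs_nonneg _)
    _ ≤ ψ (z j) := by rw [one_mul]; exact hψ (z j) _ (hTp _)

end block

variable {G : Type} [Group G] {ι : Type} [Fintype ι] {Y : ι → Variety G}

/-- **Main theorem on products.** -/
theorem equi' (hinj : ∀ j, Function.Injective (Y j).pt) (hfin : ∀ j (p : (Y j).P), (orbit G p).Finite)
    (x : ℕ → ∀ j, (Y j).P) (r : ℕ → ι → ℕ) (hr : ∀ i, Function.Injective (r i))
    (Δ : ℕ → ι → Subgroup G) (hΔn : ∀ i j, (Δ i j).Normal)
    (hΔfix : ∀ i j k, r i k < r i j → ∀ d ∈ Δ i j, ∀ g : G, d • g • x i k = g • x i k)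
    (hmost : ∀ j, ∀ f : BoundedContinuousFunction (Y j).X ℝ, ∀ ε : ℝ, 0 < ε → ∀ᶠ i in atTop,
      (({z | z ∈ orbit G (x i j) ∧ ε < |∫ w, f w ∂(uniformOn ((Y j).pt '' orbit (Δ i j) z)) -
        ∫ w, f w ∂(Y j).m|} : Set (Y j).P).ncard : ℝ) ≤ ε * (orbit G (x i j)).ncard)
    (f : BoundedContinuousFunction (∀ j, (Y j).X) ℝ) :
    Tendsto (fun i => ∫ z, f z ∂(galoisMeasure (x i))) atTop
      (𝓝 (∫ z, f z ∂(Measure.pi fun j => (Y j).m))) := by
  classical
  set F : (∀ j, (Y j).P) → ∀ j, (Y j).X := fun y j => (Y j).pt (y j) with hF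
  have hFinj : Function.Injective F := by
    intro y z hyz
    funext j
    exact hinj j (congrFun hyz j)
  have hsub : ∀ (H : Subgroup G) (j : ι) (p : (Y j).P), (orbit H p).Finite := by
    intro H j p
    refine (hfin j p).subset ?_
    rintro _ ⟨h, rfl⟩
    exact ⟨(h : G), rfl⟩
  have hOfin : ∀ i, (orbit G (x i)).Finite := by
    intro i
    refine (Set.Finite.pi' fun j => hfin j (x i j)).subset ?_
    rintro _ ⟨g, rfl⟩ j
    exact ⟨g, rfl⟩
  set O : ℕ → Finset (∀ j, (Y j).P) := fun i => (hOfin i).toFinset with hO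
  have hOc : ∀ i, (O i : Set (∀ j, (Y j).P)) = orbit G (x i) := fun i => Set.Finite.coe_toFinset _
  have hOmem : ∀ i y, y ∈ O i ↔ y ∈ orbit G (x i) := fun i y => Set.Finite.mem_toFinset _
  have hxO : ∀ i, x i ∈ O i := fun i => (hOmem i _).2 (mem_orbit_self _)
  have hOj : ∀ i, ∀ y ∈ O i, ∀ j, ∃ g : G, y j = g • x i j := by
    intro i y hy j
    obtain ⟨g, hg⟩ := (hOmem i y).1 hy
    exact ⟨g, by rw [← hg]; rfl⟩
  -- the orbit of one coordinate
  set S : ℕ → ∀ j, Finset (Y j).P := fun i j => (hfin j (x i j)).toFinset with hS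
  have hSc : ∀ i j, (S i j : Set (Y j).P) = orbit G (x i j) := fun i j => Set.Finite.coe_toFinset _
  have hSmem : ∀ i j y, y ∈ S i j ↔ y ∈ orbit G (x i j) := fun i j y => Set.Finite.mem_toFinset _
  have hScard : ∀ i j, (S i j).card = (orbit G (x i j)).ncard := fun i j => by
    rw [← hSc, Set.ncard_coe_finset]
  -- the orbit measures in one coordinate
  let ρ : ∀ (j : ι), ℕ → (Y j).P → ProbabilityMeasure (Y j).X := fun j i z =>
    ⟨uniformOn ((Y j).pt '' orbit (Δ i j) z), isProbabilityMeasure_uniformOn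
      ((hsub _ _ _).image _) ⟨_, _, mem_orbit_self _, rfl⟩⟩
  let μ : ∀ j, ProbabilityMeasure (Y j).X := fun j => ⟨(Y j).m, inferInstance⟩
  have hlim : ∀ j, Tendsto (fun ν : ProbabilityMeasure (Y j).X => ν)
      (mostFilter (fun i => S i j) (ρ j)) (𝓝 (μ j)) := by
    intro j
    rw [ProbabilityMeasure.tendsto_iff_forall_integral_tendsto]
    intro f'
    rw [Metric.tendsto_nhds]
    intro δ hδ ε hε
    have hm0 : 0 < min ε (δ / 2) := lt_min hε (half_pos hδ)
    filter_upwards [hmost j f' _ hm0] with i hi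
    rw [hScard]
    refine le_trans ?_ (hi.trans (mul_le_mul_of_nonneg_right (min_le_left _ _) (Nat.cast_nonneg _)))
    have hfin' : ({z | z ∈ orbit G (x i j) ∧ min ε (δ / 2) <
        |∫ w, f' w ∂(uniformOn ((Y j).pt '' orbit (Δ i j) z)) -
          ∫ w, f' w ∂(Y j).m|} : Set (Y j).P).Finite := (hfin j (x i j)).subset fun z hz => hz.1
    refine Nat.cast_le.2 (Set.ncard_le_ncard ?_ hfin')
    rintro z ⟨hz, hz'⟩
    refine ⟨(hSmem i j z).1 hz, ?_⟩
    by_contra hcon
    push Not at hcon
    refine hz' ?_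
    change dist (∫ w, f' w ∂(uniformOn ((Y j).pt '' orbit (Δ i j) z))) (∫ w, f' w ∂(Y j).m) < δ
    rw [Real.dist_eq]
    exact lt_of_le_of_lt (hcon.trans (min_le_right _ _)) (by linarith)
  let ν : ℕ → ProbabilityMeasure (∀ j, (Y j).X) := fun i =>
    ⟨galoisMeasure (x i), isProbabilityMeasure_uniformOn ((hOfin i).image _)
      ⟨_, _, mem_orbit_self _, rfl⟩⟩
  have hν : Tendsto ν atTop (𝓝 (ProbabilityMeasure.pi μ)) := by
    refine tendsto_of_pi_sets μ ν fun s hs hs0 => ?_
    set φ : ∀ j, (Y j).P → ℝ := fun j p => (s j).indicator (fun _ => (1 : ℝ)) ((Y j).pt p) with hφ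
    have hφ01 : ∀ j p, 0 ≤ φ j p ∧ φ j p ≤ 1 := by
      intro j p
      simp only [hφ, Set.indicator]
      split_ifs <;> norm_num
    set mu : ι → ℝ := fun j => ((μ j (s j) : NNReal) : ℝ) with hmu
    have hmu01 : ∀ j, 0 ≤ mu j ∧ mu j ≤ 1 := fun j =>
      ⟨NNReal.coe_nonneg _, by exact_mod_cast (μ j).apply_le_one (s j)⟩
    have hav : ∀ (j : ι) (p : (Y j).P) (H : Subgroup G) (T : Finset (Y j).P),
        (T : Set (Y j).P) = orbit H p →
        av T (φ j) = (uniformOn ((Y j).pt '' orbit H p)).real (s j) := by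
      intro j p H T hT
      rw [← hT, ← integral_indicator_one (hs j), av]
      exact (integral_uniformOn_image (hinj j) T ((s j).indicator 1)).symm
    set ψ : ℕ → ∀ j, (Y j).P → ℝ := fun i j p =>
      |((ρ j i p (s j) : NNReal) : ℝ) - mu j| with hψdef
    have hψ0 : ∀ i j p, 0 ≤ ψ i j p := fun i j p => abs_nonneg _
    have hψ1 : ∀ i j p, ψ i j p ≤ 1 := by
      intro i j p
      have h1 : 0 ≤ ((ρ j i p (s j) : NNReal) : ℝ) := NNReal.coe_nonneg _
      have h2 : ((ρ j i p (s j) : NNReal) : ℝ) ≤ 1 := by exact_mod_cast (ρ j i p).apply_le_one (s j)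
      simp only [hψdef]
      rw [abs_le]
      constructor <;> linarith [(hmu01 j).1, (hmu01 j).2]
    set dev : ℕ → ι → ℝ := fun i j => av (S i j) (ψ i j) with hdev
    have hdevO : ∀ i j, av (O i) (fun y => ψ i j (y j)) = dev i j := fun i j =>
      av_equiv (H := G) (π := fun z : ∀ j, (Y j).P => z j) (fun g a => rfl) (x i) (hOc i) (hSc i j) _
    have hdev0 : ∀ j, Tendsto (fun i => dev i j) atTop (𝓝 0) := by
      intro j
      have h2 := ProbabilityMeasure.tendsto_measure_of_null_frontier_of_tendsto (hlim j) (hs0 j)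
      have h3 : Tendsto (fun ν' : ProbabilityMeasure (Y j).X => ((ν' (s j) : NNReal) : ℝ))
          (mostFilter (fun i => S i j) (ρ j)) (𝓝 (mu j)) := (NNReal.tendsto_coe.2 h2)
      rw [Metric.tendsto_nhds] at h3 ⊢
      intro ε hε
      have hε4 : 0 < ε / 4 := by linarith
      filter_upwards [h3 (ε / 4) hε4 (ε / 4) hε4] with i hi
      have h5 : av (S i j) (ψ i j) ≤ 2 * (ε / 4) := by
        refine av_le_of_most (S i j) (ψ i j) hε4.le (fun z _ => hψ1 i j z) ?_
        refine le_trans (Nat.cast_le.2 (Set.ncard_le_ncard ?_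
          ((S i j).finite_toSet.subset fun z hz => hz.1))) hi
        rintro z ⟨hz, hz'⟩
        refine ⟨hz, fun h => hz' ?_⟩
        have h6 : dist ((ρ j i z (s j) : NNReal) : ℝ) (mu j) < ε / 4 := h
        rwa [Real.dist_eq] at h6
      have h7 : 0 ≤ dev i j := by
        simp only [hdev, av]
        exact div_nonneg (Finset.sum_nonneg fun z _ => hψ0 i j z) (Nat.cast_nonneg _)
      rw [Real.dist_eq, sub_zero, abs_of_nonneg h7]
      change av (S i j) (ψ i j) < ε
      linarith
    -- the product formula up to the deviations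
    have key : ∀ i (T : Finset ι), |av (O i) (fun y => ∏ k ∈ T, φ k (y k)) - ∏ k ∈ T, mu k| ≤
        ∑ k ∈ T, dev i k := by
      intro i T
      refine Finset.induction_on_max_value (r i) T ?_ ?_
      · have hOpos : (0 : ℝ) < (O i).card := by exact_mod_cast Finset.card_pos.2 ⟨x i, hxO i⟩
        simp [av, hOpos.ne']
      · intro j T hj hmax ih
        have h1 : ∀ y ∈ O i, |∏ k ∈ T, φ k (y k)| ≤ 1 := by
          intro y _
          rw [Finset.abs_prod]
          refine Finset.prod_le_one (fun k _ => abs_nonneg _) fun k _ => ?_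
          rw [abs_of_nonneg (hφ01 k _).1]
          exact (hφ01 k _).2
        have h2 : ∀ y ∈ O i, ∀ d ∈ Δ i j, ∏ k ∈ T, φ k ((d • y) k) = ∏ k ∈ T, φ k (y k) := by
          intro y hy d hd
          refine Finset.prod_congr rfl fun k hk => ?_
          have hkj : r i k < r i j := by
            refine lt_of_le_of_ne (hmax k hk) fun he => ?_
            exact hj (hr i he ▸ hk)
          obtain ⟨g, hg⟩ := hOj i y hy k
          rw [Pi.smul_apply, hg, hΔfix i j k hkj d hd g]
        have h3 := av_far' (P := fun j => (Y j).P) (hΔn i j) hfin (hOc i) (j := j)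
          (fun y => ∏ k ∈ T, φ k (y k)) h1 h2 (φ j) (mu j) (ψ i j) (fun p T' hT' => by
            rw [hav j p (Δ i j) T' hT']
            exact le_rfl)
        rw [hdevO] at h3
        have h4 : av (O i) (fun y => ∏ k ∈ insert j T, φ k (y k)) =
            av (O i) (fun z => (∏ k ∈ T, φ k (z k)) * φ j (z j)) := by
          congr 1
          funext z
          rw [Finset.prod_insert hj, mul_comm]
        rw [h4, Finset.prod_insert hj, Finset.sum_insert hj]
        set E := av (O i) (fun y => ∏ k ∈ T, φ k (y k)) with hE'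
        calc |av (O i) (fun z => (∏ k ∈ T, φ k (z k)) * φ j (z j)) - mu j * ∏ k ∈ T, mu k|
            = |(av (O i) (fun z => (∏ k ∈ T, φ k (z k)) * φ j (z j)) - mu j * E) +
                mu j * (E - ∏ k ∈ T, mu k)| := by congr 1; ring
          _ ≤ |av (O i) (fun z => (∏ k ∈ T, φ k (z k)) * φ j (z j)) - mu j * E| +
                |mu j * (E - ∏ k ∈ T, mu k)| := abs_add_le _ _
          _ ≤ dev i j + ∑ k ∈ T, dev i k := by
              refine add_le_add h3 ?_
              rw [abs_mul, abs_of_nonneg (hmu01 j).1]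
              calc mu j * |E - ∏ k ∈ T, mu k| ≤ 1 * |E - ∏ k ∈ T, mu k| :=
                    mul_le_mul_of_nonneg_right (hmu01 j).2 (abs_nonneg _)
                _ ≤ _ := by rw [one_mul]; exact ih
    have hsum0 : Tendsto (fun i => ∑ k, dev i k) atTop (𝓝 0) := by
      have := tendsto_finsetSum Finset.univ fun k _ => hdev0 k
      simpa using this
    have hav1 : Tendsto (fun i => av (O i) (fun y => ∏ k, φ k (y k))) atTop (𝓝 (∏ k, mu k)) := by
      rw [tendsto_iff_norm_sub_tendsto_zero]
      exact squeeze_zero (fun i => norm_nonneg _) (fun i => key i Finset.univ) hsum0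
    rw [← NNReal.tendsto_coe]
    push_cast
    refine hav1.congr fun i => ?_
    have h5 : ((ν i (Set.univ.pi s) : NNReal) : ℝ) =
        (galoisMeasure (x i)).real (Set.univ.pi s) := rfl
    rw [h5, ← integral_indicator_one (MeasurableSet.univ_pi hs), galoisMeasure, ← hOc i,
      integral_uniformOn_image hFinj, av]
    congr 1
    refine Finset.sum_congr rfl fun y _ => ?_
    simp only [hφ, Set.indicator]
    by_cases hall : ∀ j, (Y j).pt (y j) ∈ s j
    · rw [if_pos (by simpa using hall)]
      simp [hall]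
    · rw [if_neg (by simpa using hall)]
      push Not at hall
      obtain ⟨j, hj⟩ := hall
      exact Finset.prod_eq_zero (Finset.mem_univ j) (if_neg hj)
  exact (ProbabilityMeasure.tendsto_iff_forall_integral_tendsto.1 hν) f

end Pool.Agent.U980.RP
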