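import Mathlib
import Pool.Agent.U980.RP.Equi

/-!
# From the equidistribution of pairs to the orbits of small subgroups
-/

set_option autoImplicit false

namespace Pool.Agent.U980.RP

open Pool.Agent.U980.EQ Pool.Agent.U980.RC MulAction MeasureTheory Filter Topology ProbabilityTheory

/-- Averages over blocks. -/
theorem sum_av' {A : Type} [DecidableEq A] (O : Finset A) (R : A → Finset A) (hself : ∀ y ∈ O, y ∈ R y)
    (hR : ∀ y ∈ O, R y ⊆ O) (hconst : ∀ y ∈ O, ∀ z ∈ R y, R z = R y) (F : A → ℝ) :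
    ∑ y ∈ O, av (R y) F = ∑ y ∈ O, F y := by
  unfold av
  have h1 : ∀ y ∈ O, (∑ z ∈ R y, F z) / (R y).card = ∑ z ∈ R y, F z / (R z).card := by
    intro y hy
    rw [Finset.sum_div]
    refine Finset.sum_congr rfl fun z hz => ?_
    rw [hconst y hy z hz]
  rw [Finset.sum_congr rfl h1]
  rw [Finset.sum_comm' (t' := O) (s' := fun z => R z)]
  · refine Finset.sum_congr rfl fun z hz => ?_
    rw [Finset.sum_const, nsmul_eq_mul, mul_div_cancel₀]
    exact_mod_cast (Finset.card_pos.2 ⟨z, hself z hz⟩).ne'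
  · intro y z
    constructor
    · rintro ⟨hy, hz⟩
      exact ⟨by rw [hconst y hy z hz]; exact hself y hy, hR y hy hz⟩
    · rintro ⟨hy, hz⟩
      exact ⟨hR z hz hy, by rw [hconst z hz y hy]; exact hself z hz⟩

theorem abs_av_le {A : Type} (B : Finset A) (φ : A → ℝ) {c : ℝ} (hc : 0 ≤ c) (h : ∀ y ∈ B, |φ y| ≤ c) :
    |av B φ| ≤ c := by
  rcases B.eq_empty_or_nonempty with rfl | hB
  · simp [av, hc]
  · have hpos : (0 : ℝ) < B.card := by exact_mod_cast Finset.card_pos.2 hB
    rw [av, abs_div, abs_of_pos hpos, div_le_iff₀ hpos]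
    refine (Finset.abs_sum_le_sum_abs _ _).trans ((Finset.sum_le_sum h).trans (le_of_eq ?_))
    rw [Finset.sum_const, nsmul_eq_mul, mul_comm]

variable {G : Type} [Group G]

theorem sub_finite (T : Variety G) (H : Subgroup G) (p : T.P) : (orbit H p).Finite := by
  refine (T.finite_orbit p).subset ?_
  rintro _ ⟨h, rfl⟩
  exact ⟨(h : G), rfl⟩

theorem pair_finite (T : Variety G) (q : T.P × T.P) : (orbit G q).Finite := by
  refine ((T.finite_orbit q.1).prod (T.finite_orbit q.2)).subset ?_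
  rintro _ ⟨g, rfl⟩
  exact ⟨⟨g, rfl⟩, ⟨g, rfl⟩⟩

/-- the orbit of a special point -/
noncomputable def orb (T : Variety G) (p : T.P) : Finset T.P := (T.finite_orbit p).toFinset
/-- the orbit of a subgroup -/
noncomputable def sub (T : Variety G) (H : Subgroup G) (p : T.P) : Finset T.P := (sub_finite T H p).toFinset
/-- the orbit of a pair -/
noncomputable def pr (T : Variety G) (q : T.P × T.P) : Finset (T.P × T.P) := (pair_finite T q).toFinset

theorem mem_orb {T : Variety G} {p q : T.P} : q ∈ orb T p ↔ q ∈ orbit G p := Set.Finite.mem_toFinset _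
theorem mem_sub {T : Variety G} {H : Subgroup G} {p q : T.P} : q ∈ sub T H p ↔ q ∈ orbit H p :=
  Set.Finite.mem_toFinset _
theorem mem_pr {T : Variety G} {p q : T.P × T.P} : q ∈ pr T p ↔ q ∈ orbit G p := Set.Finite.mem_toFinset _

theorem sub_eq {T : Variety G} {H : Subgroup G} {p q : T.P} (h : q ∈ sub T H p) : sub T H q = sub T H p := by
  ext w
  rw [mem_sub, mem_sub, orbit_eq_iff.2 (mem_sub.1 h)]

theorem pr_eq {T : Variety G} {p q : T.P × T.P} (h : q ∈ pr T p) : pr T q = pr T p := by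
  ext w
  rw [mem_pr, mem_pr, orbit_eq_iff.2 (mem_pr.1 h)]

theorem self_sub (T : Variety G) (H : Subgroup G) (p : T.P) : p ∈ sub T H p := mem_sub.2 (mem_orbit_self p)
theorem self_pr (T : Variety G) (p : T.P × T.P) : p ∈ pr T p := mem_pr.2 (mem_orbit_self p)
theorem self_orb (T : Variety G) (p : T.P) : p ∈ orb T p := mem_orb.2 (mem_orbit_self p)

theorem sub_subset {T : Variety G} {H : Subgroup G} {t p : T.P} (hp : p ∈ orb T t) : sub T H p ⊆ orb T t := by
  intro q hq
  obtain ⟨h, rfl⟩ := mem_sub.1 hq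
  rw [mem_orb] at hp ⊢
  exact (orbit_eq_iff.2 hp) ▸ (⟨(h : G), rfl⟩ : (h : G) • p ∈ orbit G p)

theorem smul_sub {T : Variety G} {Δ : Subgroup G} (hΔ : Δ.Normal) (g : G) (p : T.P) {w : T.P} :
    g • w ∈ sub T Δ (g • p) ↔ w ∈ sub T Δ p := by
  rw [mem_sub, mem_sub]
  constructor
  · rintro ⟨d, hd⟩
    refine ⟨⟨g⁻¹ * d * g, ?_⟩, ?_⟩
    · have := hΔ.conj_mem d d.2 g⁻¹
      rwa [inv_inv] at this
    · change (g⁻¹ * (d : G) * g) • p = w
      have hd' : (d : G) • g • p = g • w := hd
      rw [mul_smul, mul_smul, hd', inv_smul_smul]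
  · rintro ⟨d, rfl⟩
    refine ⟨⟨g * d * g⁻¹, hΔ.conj_mem d d.2 g⟩, ?_⟩
    change (g * (d : G) * g⁻¹) • g • p = g • (d : G) • p
    simp [smul_smul]

theorem sub_smul {T : Variety G} {Δ : Subgroup G} (hΔ : Δ.Normal) (g : G) (p : T.P) [DecidableEq T.P] :
    sub T Δ (g • p) = (sub T Δ p).image (g • ·) := by
  ext w
  rw [Finset.mem_image]
  constructor
  · intro hw
    refine ⟨g⁻¹ • w, ?_, smul_inv_smul g w⟩
    rw [← smul_sub hΔ g, smul_inv_smul]
    exact hw
  · rintro ⟨w, hw, rfl⟩
    exact (smul_sub hΔ g p).2 hw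

theorem pr_smul (T : Variety G) (g : G) (p : T.P × T.P) : pr T (g • p) = pr T p :=
  pr_eq (mem_pr.2 ⟨g, rfl⟩)

/-- The mean over all pairs in the same block, as a mean of orbit averages. -/
theorem sum_pairs {T : Variety G} {Δ : Subgroup G} (hΔ : Δ.Normal) (t : T.P) (F : T.P × T.P → ℝ) :
    ∑ z ∈ orb T t, ∑ w ∈ sub T Δ z, F (z, w) =
      (orb T t).card * ∑ w ∈ sub T Δ t, av (pr T (t, w)) F := by
  classical
  set O := orb T t with hO
  set prs : Finset (T.P × T.P) := (O ×ˢ O).filter fun p => p.2 ∈ sub T Δ p.1 with hprs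
  have hsum : ∀ H : T.P × T.P → ℝ, ∑ p ∈ prs, H p = ∑ z ∈ O, ∑ w ∈ sub T Δ z, H (z, w) := by
    intro H
    rw [hprs, Finset.sum_filter, Finset.sum_product]
    refine Finset.sum_congr rfl fun z hz => ?_
    rw [← Finset.sum_filter]
    refine Finset.sum_congr ?_ fun _ _ => rfl
    ext w
    rw [Finset.mem_filter]
    exact ⟨fun h => h.2, fun h => ⟨sub_subset hz h, h⟩⟩
  have h1 : ∑ p ∈ prs, av (pr T p) F = ∑ p ∈ prs, F p := by
    refine sum_av' prs (pr T) (fun p _ => self_pr T p) ?_ (fun p _ q hq => pr_eq hq) F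
    intro p hp q hq
    rw [hprs, Finset.mem_filter, Finset.mem_product] at hp ⊢
    obtain ⟨g, rfl⟩ := mem_pr.1 hq
    refine ⟨⟨?_, ?_⟩, (smul_sub hΔ g p.1).2 hp.2⟩
    · rw [hO, mem_orb] at hp ⊢
      exact (orbit_eq_iff.2 hp.1.1) ▸ (⟨g, rfl⟩ : g • p.1 ∈ orbit G p.1)
    · have h2 := hp.1.2
      rw [hO, mem_orb] at h2 ⊢
      exact (orbit_eq_iff.2 h2) ▸ (⟨g, rfl⟩ : g • p.2 ∈ orbit G p.2)
  rw [← hsum, ← h1, hsum]
  have h3 : ∀ z ∈ O, ∑ w ∈ sub T Δ z, av (pr T (z, w)) F = ∑ w ∈ sub T Δ t, av (pr T (t, w)) F := by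
    intro z hz
    rw [hO, mem_orb] at hz
    obtain ⟨g, rfl⟩ := hz
    change ∑ w ∈ sub T Δ (g • t), av (pr T (g • t, w)) F = _
    rw [sub_smul hΔ, Finset.sum_image (fun a _ b _ h => MulAction.injective g h)]
    refine Finset.sum_congr rfl fun w _ => ?_
    rw [← pr_smul T g (t, w)]
    rfl
  rw [Finset.sum_congr rfl h3, Finset.sum_const, nsmul_eq_mul]

/-- The Hecke correspondences of a curve `T`: the proper special subvarieties of `T × T` which are not a
product of `T` with a point. They have finite degree over the first factor. -/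
structure Correspondences (T : Variety G) where
  corr : ℕ → Set (T.P × T.P)
  deg : ℕ → ℕ
  finite : ∀ k p, {q | (p, q) ∈ corr k}.Finite
  le : ∀ k p, {q | (p, q) ∈ corr k}.ncard ≤ deg k

/-- The question for `T × T`: the Galois orbits of pairs of special points on `T` are equidistributed, for all
sequences of pairs in which no special point occurs infinitely often in a coordinate and which are
eventually outside each Hecke correspondence. -/
def PairEquidistribution (T : Variety G) (C : Correspondences T) : Prop :=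
  ∀ a b : ℕ → T.P, (∀ p, ∀ᶠ i in atTop, a i ≠ p) → (∀ p, ∀ᶠ i in atTop, b i ≠ p) →
    (∀ k, ∀ᶠ i in atTop, (a i, b i) ∉ C.corr k) → ∀ f : BoundedContinuousFunction (T.X × T.X) ℝ,
    Tendsto (fun i => ∫ z, f z ∂(uniformOn ((fun q : T.P × T.P => (T.pt q.1, T.pt q.2)) ''
      orbit G (a i, b i)))) atTop (𝓝 (∫ z, f z ∂(T.m.prod T.m)))

/-- The mixing property for a sequence of special points `t i` on `T`: for all sequences of Galois conjugates
`b i` of `t i` such that the pairs `(t i, b i)` are eventually outside each Hecke correspondence, the Galois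
orbits of these pairs are equidistributed on `T × T`. -/
def Mixing (T : Variety G) (C : Correspondences T) (t : ℕ → T.P) : Prop :=
  ∀ b : ℕ → T.P, (∀ i, b i ∈ orbit G (t i)) →
    (∀ k, ∀ᶠ i in atTop, (t i, b i) ∉ C.corr k) → ∀ f : BoundedContinuousFunction (T.X × T.X) ℝ,
    Tendsto (fun i => ∫ z, f z ∂(uniformOn ((fun q : T.P × T.P => (T.pt q.1, T.pt q.2)) ''
      orbit G (t i, b i)))) atTop (𝓝 (∫ z, f z ∂(T.m.prod T.m)))

theorem mixing_of_pair {T : Variety G} {C : Correspondences T} (hC : PairEquidistribution T C)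
    {t : ℕ → T.P} (ht : ∀ p, ∀ᶠ i in atTop, t i ≠ p) : Mixing T C t := by
  intro b hb hcorr f
  refine hC t b ht (fun p => ?_) hcorr f
  have h1 := (eventually_all_finite (T.finite_orbit p)).2 fun q _ => ht q
  filter_upwards [h1] with i hi hip
  refine hi (t i) ?_ rfl
  rw [← hip]
  exact mem_orbit_symm.1 (hb i)

theorem integral_pair (T : Variety G) (q : T.P × T.P) (f : T.X × T.X → ℝ) :
    ∫ z, f z ∂(uniformOn ((fun q : T.P × T.P => (T.pt q.1, T.pt q.2)) '' orbit G q)) =
      av (pr T q) fun q => f (T.pt q.1, T.pt q.2) := by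
  have hinj : Function.Injective fun q : T.P × T.P => (T.pt q.1, T.pt q.2) := by
    intro a b hab
    exact Prod.ext (T.pt_inj (congrArg Prod.fst hab)) (T.pt_inj (congrArg Prod.snd hab))
  have h : (orbit G q : Set (T.P × T.P)) = (pr T q : Set (T.P × T.P)) := by
    ext w
    rw [Finset.mem_coe, mem_pr]
  rw [h, integral_uniformOn_image hinj]
  rfl

/-- Most pairs are outside the Hecke correspondences, so their orbit averages converge. -/
theorem gen {T : Variety G} {C : Correspondences T} (t : ℕ → T.P) (hC : Mixing T C t)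
    (Δ : ℕ → Subgroup G)
    (hbig : Tendsto (fun i => (sub T (Δ i) (t i)).card) atTop atTop)
    (f : BoundedContinuousFunction (T.X × T.X) ℝ) :
    Tendsto (fun i => av (sub T (Δ i) (t i)) fun w =>
      |av (pr T (t i, w)) (fun q => f (T.pt q.1, T.pt q.2)) - ∫ z, f z ∂(T.m.prod T.m)|) atTop (𝓝 0) := by
  classical
  set κ := ∫ z, f z ∂(T.m.prod T.m) with hκ
  set dev : ℕ → T.P → ℝ := fun i w =>
    |av (pr T (t i, w)) (fun q => f (T.pt q.1, T.pt q.2)) - κ| with hdev
  set c : ℝ := ‖f‖ + |κ| with hc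
  have hc0 : 0 ≤ c := by positivity
  have hdev0 : ∀ i w, 0 ≤ dev i w := fun i w => abs_nonneg _
  have hdevc : ∀ i w, dev i w ≤ c := by
    intro i w
    refine (abs_sub _ _).trans (add_le_add ?_ le_rfl)
    exact abs_av_le _ _ (norm_nonneg f) fun q _ => f.norm_coe_le_norm _
  set D : ℕ → ℕ := fun K => ∑ k ∈ Finset.range K, C.deg k with hD
  set K : ℕ → ℕ := fun i =>
    Nat.findGreatest (fun K => K * D K ≤ (sub T (Δ i) (t i)).card) i with hK
  have hKs : ∀ i, K i * D (K i) ≤ (sub T (Δ i) (t i)).card := fun i =>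
    Nat.findGreatest_spec (P := fun K => K * D K ≤ (sub T (Δ i) (t i)).card) (Nat.zero_le i) (by simp)
  have hKt : Tendsto K atTop atTop := by
    rw [tendsto_atTop]
    intro B
    filter_upwards [hbig.eventually_ge_atTop (B * D B), eventually_ge_atTop B] with i h1 h2
    exact Nat.le_findGreatest h2 h1
  set good : ℕ → Finset T.P := fun i =>
    (sub T (Δ i) (t i)).filter fun w => ¬ ∃ k < K i, (t i, w) ∈ C.corr k with hgood
  set bad : ℕ → Finset T.P := fun i =>
    (sub T (Δ i) (t i)).filter fun w => ∃ k < K i, (t i, w) ∈ C.corr k with hbad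
  have hbadc : ∀ i, (bad i).card ≤ D (K i) := by
    intro i
    have h1 : bad i ⊆ (Finset.range (K i)).biUnion fun k => (C.finite k (t i)).toFinset := by
      intro w hw
      rw [hbad, Finset.mem_filter] at hw
      obtain ⟨-, k, hk, hkw⟩ := hw
      rw [Finset.mem_biUnion]
      exact ⟨k, Finset.mem_range.2 hk, (Set.Finite.mem_toFinset _).2 hkw⟩
    refine (Finset.card_le_card h1).trans (Finset.card_biUnion_le.trans (Finset.sum_le_sum fun k _ => ?_))
    rw [← Set.ncard_eq_toFinset_card _ (C.finite k (t i))]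
    exact C.le k (t i)
  have hsplit : ∀ i, (bad i).card + (good i).card = (sub T (Δ i) (t i)).card := fun i =>
    Finset.card_filter_add_card_filter_not _
  have hgne : ∀ᶠ i in atTop, (good i).Nonempty := by
    filter_upwards [hKt.eventually_ge_atTop 2] with i hi
    rw [← Finset.card_pos]
    have h1 := hKs i
    have h2 := hbadc i
    have h3 := hsplit i
    have h4 : 0 < (sub T (Δ i) (t i)).card := Finset.card_pos.2 ⟨_, self_sub T _ _⟩
    have h5 : 2 * D (K i) ≤ K i * D (K i) := Nat.mul_le_mul_right _ hi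
    omega
  have hw : ∀ i, ∃ w ∈ sub T (Δ i) (t i), ((good i).Nonempty → w ∈ good i ∧ ∀ v ∈ good i, dev i v ≤ dev i w) := by
    intro i
    by_cases h : (good i).Nonempty
    · obtain ⟨w, hw, hmax⟩ := Finset.exists_max_image (good i) (dev i) h
      exact ⟨w, (Finset.mem_filter.1 hw).1, fun _ => ⟨hw, hmax⟩⟩
    · exact ⟨t i, self_sub T _ _, fun h' => absurd h' h⟩
  choose w hws hwg using hw
  have hworb : ∀ i, w i ∈ orbit G (t i) := by
    intro i
    obtain ⟨d, hd⟩ := mem_sub.1 (hws i)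
    exact ⟨(d : G), hd⟩
  have hcorr : ∀ k, ∀ᶠ i in atTop, (t i, w i) ∉ C.corr k := by
    intro k
    filter_upwards [hgne, hKt.eventually_gt_atTop k] with i hi hik hcon
    have h1 := (hwg i hi).1
    rw [hgood, Finset.mem_filter] at h1
    exact h1.2 ⟨k, hik, hcon⟩
  have hlim : Tendsto (fun i => dev i (w i)) atTop (𝓝 0) := by
    have h1 := (hC w hworb hcorr f).sub_const κ
    rw [sub_self] at h1
    have h2 := h1.abs
    rw [abs_zero] at h2
    refine h2.congr fun i => ?_
    rw [integral_pair T (t i, w i) f]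
  have hlim2 : Tendsto (fun i => dev i (w i) + c * ((K i : ℝ))⁻¹) atTop (𝓝 0) := by
    have h1 : Tendsto (fun i => ((K i : ℝ))⁻¹) atTop (𝓝 0) :=
      (tendsto_natCast_atTop_atTop.comp hKt).inv_tendsto_atTop
    have h2 := hlim.add (h1.const_mul c)
    simpa using h2
  refine squeeze_zero' (Eventually.of_forall fun i => ?_) ?_ hlim2
  · exact div_nonneg (Finset.sum_nonneg fun w _ => hdev0 i w) (Nat.cast_nonneg _)
  · filter_upwards [hgne, hKt.eventually_ge_atTop 1] with i hi hK1
    have hb0 : (0 : ℝ) < (sub T (Δ i) (t i)).card := by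
      exact_mod_cast Finset.card_pos.2 ⟨_, self_sub T (Δ i) (t i)⟩
    have hKpos : (0 : ℝ) < K i := by exact_mod_cast hK1
    have h1 : ∑ v ∈ sub T (Δ i) (t i), dev i v = ∑ v ∈ bad i, dev i v + ∑ v ∈ good i, dev i v :=
      (Finset.sum_filter_add_sum_filter_not _ _ _).symm
    have h2 : ∑ v ∈ bad i, dev i v ≤ (bad i).card * c := by
      refine (Finset.sum_le_sum fun v _ => hdevc i v).trans (le_of_eq ?_)
      rw [Finset.sum_const, nsmul_eq_mul]
    have h3 : ∑ v ∈ good i, dev i v ≤ (sub T (Δ i) (t i)).card * dev i (w i) := by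
      refine (Finset.sum_le_sum fun v hv => (hwg i hi).2 v hv).trans ?_
      rw [Finset.sum_const, nsmul_eq_mul]
      refine mul_le_mul_of_nonneg_right ?_ (hdev0 i _)
      exact_mod_cast Finset.card_filter_le _ _
    have h4 : ((bad i).card : ℝ) ≤ (K i : ℝ)⁻¹ * (sub T (Δ i) (t i)).card := by
      rw [← div_eq_inv_mul, le_div_iff₀ hKpos]
      have h5 : (bad i).card * K i ≤ (sub T (Δ i) (t i)).card :=
        (Nat.mul_le_mul_right _ (hbadc i)).trans (by rw [mul_comm]; exact hKs i)
      exact_mod_cast h5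
    change (∑ v ∈ sub T (Δ i) (t i), dev i v) / (sub T (Δ i) (t i)).card ≤ _
    rw [div_le_iff₀ hb0, h1]
    have h6 : ((bad i).card : ℝ) * c ≤ (K i : ℝ)⁻¹ * (sub T (Δ i) (t i)).card * c :=
      mul_le_mul_of_nonneg_right h4 hc0
    nlinarith

/-- The variance of the block averages tends to zero. -/
theorem variance {T : Variety G} {C : Correspondences T} (t : ℕ → T.P) (hC : Mixing T C t)
    (Δ : ℕ → Subgroup G) (hΔ : ∀ i, (Δ i).Normal)
    (hbig : Tendsto (fun i => (sub T (Δ i) (t i)).card) atTop atTop)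
    (f : BoundedContinuousFunction T.X ℝ) :
    Tendsto (fun i => av (orb T (t i)) fun z =>
      (av (sub T (Δ i) z) (fun w => f (T.pt w)) - ∫ y, f y ∂T.m) ^ 2) atTop (𝓝 0) := by
  classical
  set μ := ∫ y, f y ∂T.m with hμ
  let f1 : BoundedContinuousFunction (T.X × T.X) ℝ := f.compContinuous ⟨Prod.fst, continuous_fst⟩
  let f2 : BoundedContinuousFunction (T.X × T.X) ℝ :=
    f.compContinuous ⟨Prod.fst, continuous_fst⟩ * f.compContinuous ⟨Prod.snd, continuous_snd⟩
  have i1 : ∫ z, f1 z ∂(T.m.prod T.m) = μ := by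
    have h := integral_prod_mul (μ := T.m) (ν := T.m) (fun x => f x) (fun _ => (1 : ℝ))
    have h' : ∫ z : T.X × T.X, f z.1 ∂(T.m.prod T.m) = ∫ x, f x ∂T.m := by simpa using h
    exact h'
  have i2 : ∫ z, f2 z ∂(T.m.prod T.m) = μ * μ :=
    integral_prod_mul (μ := T.m) (ν := T.m) (fun x => f x) (fun x => f x)
  have g1 := gen t hC Δ hbig f1
  have g2 := gen t hC Δ hbig f2
  rw [i1] at g1
  rw [i2] at g2
  have hlim : Tendsto (fun i => (av (sub T (Δ i) (t i)) fun w =>
      |av (pr T (t i, w)) (fun q => f2 (T.pt q.1, T.pt q.2)) - μ * μ|) +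
      2 * |μ| * (av (sub T (Δ i) (t i)) fun w =>
      |av (pr T (t i, w)) (fun q => f1 (T.pt q.1, T.pt q.2)) - μ|)) atTop (𝓝 0) := by
    have h := g2.add (g1.const_mul (2 * |μ|))
    simpa using h
  refine squeeze_zero (fun i => ?_) (fun i => ?_) hlim
  · exact div_nonneg (Finset.sum_nonneg fun w _ => sq_nonneg _) (Nat.cast_nonneg _)
  · set O := orb T (t i) with hO
    set R := sub T (Δ i) (t i) with hR
    set a : T.P → ℝ := fun z => av (sub T (Δ i) z) (fun w => f (T.pt w)) with ha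
    have hO0 : (0 : ℝ) < O.card := by exact_mod_cast Finset.card_pos.2 ⟨_, self_orb T (t i)⟩
    have hR0 : (0 : ℝ) < R.card := by exact_mod_cast Finset.card_pos.2 ⟨_, self_sub T (Δ i) (t i)⟩
    have hblk : ∀ H : T.P → ℝ, ∑ z ∈ O, av (sub T (Δ i) z) H = ∑ z ∈ O, H z := fun H =>
      sum_av' O (sub T (Δ i)) (fun z _ => self_sub T _ z) (fun z hz => sub_subset hz)
        (fun z _ w hw => sub_eq hw) H
    have haconst : ∀ z, ∀ w ∈ sub T (Δ i) z, a w = a z := by
      intro z w hw
      simp only [ha]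
      rw [sub_eq hw]
    have e1 : ∑ z ∈ O, a z = ∑ z ∈ O, f (T.pt z) := hblk _
    have e2 : ∑ z ∈ O, a z * a z = ∑ z ∈ O, f (T.pt z) * a z := by
      rw [← hblk (fun z => f (T.pt z) * a z)]
      refine Finset.sum_congr rfl fun z _ => ?_
      have h1 : ∑ w ∈ sub T (Δ i) z, f (T.pt w) * a w = (∑ w ∈ sub T (Δ i) z, f (T.pt w)) * a z := by
        rw [Finset.sum_mul]
        exact Finset.sum_congr rfl fun w hw => by rw [haconst z w hw]
      change a z * a z = (∑ w ∈ sub T (Δ i) z, f (T.pt w) * a w) / _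
      rw [h1, mul_div_right_comm]
      rfl
    have hcardR : ∀ z ∈ O, (sub T (Δ i) z).card = R.card := by
      intro z hz
      obtain ⟨g, rfl⟩ := mem_orb.1 hz
      change (sub T (Δ i) (g • t i)).card = _
      rw [sub_smul (hΔ i), Finset.card_image_of_injective _ (MulAction.injective g)]
    have e3 : ∑ z ∈ O, f (T.pt z) * a z =
        O.card * av R (fun w => av (pr T (t i, w)) fun q => f2 (T.pt q.1, T.pt q.2)) := by
      have h1 := sum_pairs (hΔ i) (t i) fun q => f2 (T.pt q.1, T.pt q.2)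
      have h2 : ∑ z ∈ O, f (T.pt z) * a z =
          (∑ z ∈ O, ∑ w ∈ sub T (Δ i) z, f2 (T.pt z, T.pt w)) / R.card := by
        rw [Finset.sum_div]
        refine Finset.sum_congr rfl fun z hz => ?_
        have h3 : ∑ w ∈ sub T (Δ i) z, f2 (T.pt z, T.pt w) =
            f (T.pt z) * ∑ w ∈ sub T (Δ i) z, f (T.pt w) := by
          rw [Finset.mul_sum]
          rfl
        rw [h3, ← hcardR z hz, mul_div_assoc]
        rfl
      rw [h2]
      change (∑ z ∈ O, ∑ w ∈ sub T (Δ i) z, f2 (T.pt z, T.pt w)) / _ = _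
      have h1' : ∑ z ∈ O, ∑ w ∈ sub T (Δ i) z, f2 (T.pt z, T.pt w) =
          O.card * ∑ w ∈ R, av (pr T (t i, w)) fun q => f2 (T.pt q.1, T.pt q.2) := h1
      rw [h1', av, mul_div_assoc]
    have e4 : ∀ w, av (pr T (t i, w)) (fun q => f1 (T.pt q.1, T.pt q.2)) = av O fun z => f (T.pt z) := by
      intro w
      have h5 : (pr T (t i, w) : Set (T.P × T.P)) = orbit G (t i, w) := by
        ext q
        rw [Finset.mem_coe, mem_pr]
      have h6 : (O : Set T.P) = orbit G (t i) := by
        ext q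
        rw [Finset.mem_coe, mem_orb]
      exact av_equiv (H := G) (π := fun q : T.P × T.P => q.1) (fun g a => rfl) (t i, w) h5 h6
        fun z => f (T.pt z)
    -- the variance
    have e5 : av O (fun z => (a z - μ) ^ 2) =
        (av R (fun w => av (pr T (t i, w)) fun q => f2 (T.pt q.1, T.pt q.2)) - μ * μ) -
          2 * μ * (av O (fun z => f (T.pt z)) - μ) := by
      have h7 : ∑ z ∈ O, (a z - μ) ^ 2 = ∑ z ∈ O, a z * a z - 2 * μ * ∑ z ∈ O, a z + O.card * μ ^ 2 := by
        rw [Finset.mul_sum, ← Finset.sum_sub_distrib, ← nsmul_eq_mul, ← Finset.sum_const,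
          ← Finset.sum_add_distrib]
        exact Finset.sum_congr rfl fun z _ => by ring
      have h8 : av O (fun z => (a z - μ) ^ 2) = (∑ z ∈ O, (a z - μ) ^ 2) / O.card := rfl
      have h9 : av O (fun z => f (T.pt z)) = (∑ z ∈ O, f (T.pt z)) / O.card := rfl
      rw [h8, h9, h7, e2, e3, e1]
      field_simp
      ring
    have e6 : |av R (fun w => av (pr T (t i, w)) fun q => f2 (T.pt q.1, T.pt q.2)) - μ * μ| ≤
        av R fun w => |av (pr T (t i, w)) (fun q => f2 (T.pt q.1, T.pt q.2)) - μ * μ| := by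
      have h10 : av R (fun w => av (pr T (t i, w)) fun q => f2 (T.pt q.1, T.pt q.2)) - μ * μ =
          (∑ w ∈ R, (av (pr T (t i, w)) (fun q => f2 (T.pt q.1, T.pt q.2)) - μ * μ)) / R.card := by
        rw [av, Finset.sum_sub_distrib, Finset.sum_const, nsmul_eq_mul]
        field_simp
      rw [h10, abs_div, abs_of_pos hR0]
      exact div_le_div_of_nonneg_right (Finset.abs_sum_le_sum_abs _ _) hR0.le
    have e7 : |av O (fun z => f (T.pt z)) - μ| =
        av R fun w => |av (pr T (t i, w)) (fun q => f1 (T.pt q.1, T.pt q.2)) - μ| := by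
      have h11 : (fun w => |av (pr T (t i, w)) (fun q => f1 (T.pt q.1, T.pt q.2)) - μ|) =
          fun _ => |av O (fun z => f (T.pt z)) - μ| := by
        funext w
        rw [e4 w]
      rw [h11]
      change _ = (∑ _w ∈ R, |av O (fun z => f (T.pt z)) - μ|) / R.card
      rw [Finset.sum_const, nsmul_eq_mul]
      field_simp
    change av O (fun z => (a z - μ) ^ 2) ≤ _
    rw [e5, ← e7]
    refine (le_abs_self _).trans ((abs_sub _ _).trans (add_le_add e6 ?_))
    rw [abs_mul, abs_mul, abs_two]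

end Pool.Agent.U980.RP
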